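import Pool.Agent.Y462.GE.Stm
import Mathlib.Algebra.Polynomial.FieldDivision

/-!
# Polynomial rings: the degree function and the Euclidean algorithm

Owner helper273, for helper462.
-/

set_option autoImplicit false

namespace Pool.Agent.Y273.GE

open Pool.Agent.Y462.GE
open Polynomial

theorem t_deg : S_DEG := by
  intro k _
  refine ⟨fun x => Polynomial.degree_eq_bot, fun x y => Polynomial.degree_mul,
    fun x y => Polynomial.degree_add_le x y, fun x => ?_⟩
  constructor
  · intro h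
    exact ⟨x.coeff 0, Polynomial.degree_le_zero_iff.1 h⟩
  · rintro ⟨c, rfl⟩
    exact Polynomial.degree_C_le

/-- the swap -/
def sw (k : Type) [Field k] : (Matrix (Fin 2) (Fin 2) k)ˣ where
  val := !![0, 1; 1, 0]
  inv := !![0, 1; 1, 0]
  val_inv := by
    ext i j
    fin_cases i <;> fin_cases j <;> simp [Matrix.mul_apply, Fin.sum_univ_two]
  inv_val := by
    ext i j
    fin_cases i <;> fin_cases j <;> simp [Matrix.mul_apply, Fin.sum_univ_two]

theorem tri_mem {k : Type} [Field k] (M : U2 k[X]) (h : M.val 1 0 = 0) : M ∈ GE2 k k[X] := by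
  have hd : IsUnit (M.val.det) := (Matrix.isUnit_iff_isUnit_det _).1 M.isUnit
  rw [Matrix.det_fin_two, h, mul_zero, sub_zero] at hd
  obtain ⟨a, ha, ha'⟩ := Polynomial.isUnit_iff.1 (isUnit_of_mul_isUnit_left hd)
  obtain ⟨d, hd1, hd'⟩ := Polynomial.isUnit_iff.1 (isUnit_of_mul_isUnit_right hd)
  obtain ⟨a, rfl⟩ := ha
  obtain ⟨d, rfl⟩ := hd1
  refine Subgroup.mem_sup_right ⟨⟨a, d, M.val 0 1⟩, ?_⟩
  apply Units.ext
  ext1 i j
  fin_cases i <;> fin_cases j
  · exact ha'
  · rfl
  · exact h.symm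
  · exact hd'

theorem step {k : Type} [Field k] (M : U2 k[X]) (s : k[X]) :
    (sc k k[X] (sw k) * (Pool.Agent.Y462.GE.mt k k[X] ⟨1, 1, -s⟩ * M)).val 1 0 = M.val 0 0 - s * M.val 1 0 := by
  simp [Matrix.mul_apply, Matrix.vecMul, dotProduct, Fin.sum_univ_two, sc,
    Pool.Agent.Y462.GE.mt, sw]
  ring

theorem mem_all {k : Type} [Field k] (M : U2 k[X]) : M ∈ GE2 k k[X] := by
  induction hn : (M.val 1 0).degree using WellFoundedLT.induction generalizing M with
  | ind n ih =>
    by_cases hq : M.val 1 0 = 0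
    · exact tri_mem M hq
    · have h1 : sc k k[X] (sw k) * (Pool.Agent.Y462.GE.mt k k[X] ⟨1, 1, -(M.val 0 0 / M.val 1 0)⟩ * M) ∈
          GE2 k k[X] := by
        refine ih _ ?_ _ rfl
        rw [step, ← hn]
        have h2 : M.val 0 0 - M.val 0 0 / M.val 1 0 * M.val 1 0 = M.val 0 0 % M.val 1 0 := by
          have := EuclideanDomain.div_add_mod (M.val 0 0) (M.val 1 0)
          linear_combination -this
        rw [h2]
        exact Polynomial.degree_mod_lt _ hq
      have h3 : sc k k[X] (sw k) ∈ GE2 k k[X] := Subgroup.mem_sup_left ⟨_, rfl⟩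
      have h4 : Pool.Agent.Y462.GE.mt k k[X] ⟨1, 1, -(M.val 0 0 / M.val 1 0)⟩ ∈ GE2 k k[X] :=
        Subgroup.mem_sup_right ⟨_, rfl⟩
      exact (Subgroup.mul_mem_cancel_left _ h4).1 ((Subgroup.mul_mem_cancel_left _ h3).1 h1)

theorem t_euc : S_EUC := by
  intro k _
  rw [eq_top_iff]
  intro M _
  exact mem_all M

end Pool.Agent.Y273.GE
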